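import Pool.Agent.L5helper86.RB.Base

/-! Roots of `1 - b + b² - … + b^(n-1)` modulo primes (part C1 of project RB of helper86). -/

set_option autoImplicit false

namespace Pool.Agent.L5helper10.RB

open Finset Pool.Agent.L5helper86.RB

lemma geo_mul {p : ℕ} (x : ZMod p) (n : ℕ) : (∑ i ∈ range n, x ^ i) * (x - 1) = x ^ n - 1 := geom_sum_mul x n

lemma geo_one {p : ℕ} (n : ℕ) : (∑ i ∈ range n, (1 : ZMod p) ^ i) = n := by simp

lemma card_rts_eq {p : ℕ} (n : ℕ) [hp : Fact p.Prime] :
    #(rts p n) = #((univ : Finset (ZMod p)).filter fun x => ∑ i ∈ range n, x ^ i = 0) := by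
  classical
  refine Finset.card_bij (fun (b : ℕ) _ => (-(b : ZMod p))) ?_ ?_ ?_
  · intro b hb
    unfold rts at hb
    rw [mem_filter] at hb
    rw [mem_filter]
    exact ⟨mem_univ _, hb.2⟩
  · intro b hb c hc h
    unfold rts at hb hc
    rw [mem_filter, mem_range] at hb hc
    have h1 : (b : ZMod p) = c := neg_injective h
    have h2 := congrArg ZMod.val h1
    rwa [ZMod.val_natCast_of_lt hb.1, ZMod.val_natCast_of_lt hc.1] at h2
  · intro x hx
    rw [mem_filter] at hx
    refine ⟨(-x).val, ?_, ?_⟩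
    · unfold rts
      rw [mem_filter, mem_range]
      refine ⟨ZMod.val_lt _, ?_⟩
      unfold qs
      rw [ZMod.natCast_zmod_val, neg_neg]
      exact hx.2
    · rw [ZMod.natCast_zmod_val, neg_neg]

lemma geo_zero_iff {n p : ℕ} (hn : n.Prime) [hp : Fact p.Prime] (hpn : p ≠ n) (x : ZMod p) :
    ∑ i ∈ range n, x ^ i = 0 ↔ x ^ n = 1 ∧ x ≠ 1 := by
  constructor
  · intro h
    have h1 := geo_mul x n
    rw [h, zero_mul] at h1
    refine ⟨(sub_eq_zero.1 h1.symm), ?_⟩
    rintro rfl
    rw [geo_one, ZMod.natCast_eq_zero_iff] at h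
    exact hpn ((Nat.prime_dvd_prime_iff_eq hp.out hn).1 h)
  · rintro ⟨h1, h2⟩
    have h3 := geo_mul x n
    rw [h1, sub_self] at h3
    rcases mul_eq_zero.1 h3 with h4 | h4
    · exact h4
    · exact absurd (sub_eq_zero.1 h4) h2

theorem card_rts {n p : ℕ} (hn : n.Prime) (hn2 : n ≠ 2) (hp : p.Prime) :
    #(rts p n) = if p = n then 1 else if p % n = 1 then n - 1 else 0 := by
  classical
  have := Fact.mk hp
  have := Fact.mk hn
  rw [card_rts_eq]
  split_ifs with h1 h2
  · subst h1
    rw [Finset.card_eq_one]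
    refine ⟨1, ?_⟩
    ext x
    rw [mem_filter, mem_singleton]
    constructor
    · rintro ⟨-, h⟩
      have h3 := geo_mul x p
      rw [h, zero_mul, ZMod.pow_card] at h3
      exact sub_eq_zero.1 h3.symm
    · rintro rfl
      refine ⟨mem_univ _, ?_⟩
      rw [geo_one]
      exact ZMod.natCast_self p
  · -- elements of order n
    have hd : n ∣ Fintype.card (ZMod p)ˣ := by
      rw [ZMod.card_units]
      have := Nat.div_add_mod p n
      rw [h2] at this
      exact ⟨p / n, by omega⟩
    have h3 := IsCyclic.card_orderOf_eq_totient hd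
    rw [Nat.totient_prime hn] at h3
    rw [← h3]
    symm
    apply Finset.card_bij (fun (u : (ZMod p)ˣ) _ => (u : ZMod p))
    · intro u hu
      rw [mem_filter] at hu
      rw [mem_filter]
      refine ⟨mem_univ _, (geo_zero_iff hn h1 _).2 ⟨?_, ?_⟩⟩
      · have := pow_orderOf_eq_one u
        rw [hu.2] at this
        rw [← Units.val_pow_eq_pow_val, this, Units.val_one]
      · intro h
        have h4 : u = 1 := Units.ext h
        rw [h4, orderOf_one] at hu
        exact hn.one_lt.ne' hu.2.symm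
    · intro u _ v _ h
      exact Units.ext h
    · intro x hx
      rw [mem_filter, geo_zero_iff hn h1] at hx
      have hx0 : x ≠ 0 := by
        rintro rfl
        rw [zero_pow hn.ne_zero] at hx
        exact zero_ne_one hx.2.1
      refine ⟨Units.mk0 x hx0, ?_, rfl⟩
      rw [mem_filter]
      refine ⟨mem_univ _, ?_⟩
      apply orderOf_eq_prime
      · apply Units.ext
        rw [Units.val_pow_eq_pow_val, Units.val_mk0, hx.2.1, Units.val_one]
      · intro h
        apply hx.2.2
        have := congrArg Units.val h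
        rwa [Units.val_mk0, Units.val_one] at this
  · rw [Finset.card_eq_zero, Finset.filter_eq_empty_iff]
    intro x _ hx
    rw [geo_zero_iff hn h1] at hx
    have hx0 : x ≠ 0 := by
      rintro rfl
      rw [zero_pow hn.ne_zero] at hx
      exact zero_ne_one hx.1
    have h3 : orderOf x = n := orderOf_eq_prime hx.1 hx.2
    have h4 := ZMod.orderOf_dvd_card_sub_one hx0
    rw [h3] at h4
    obtain ⟨k, hk⟩ := h4
    apply h2
    have h5 : p = 1 + n * k := by
      have := hp.one_lt
      omega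
    rw [h5, Nat.add_mul_mod_self_left, Nat.mod_eq_of_lt hn.one_lt]

theorem rts_disj {n m p : ℕ} (hn : n.Prime) (_hn2 : n ≠ 2) (hm : m.Prime) (_hm2 : m ≠ 2) (hnm : n ≠ m) (hp : p.Prime) (b : ℕ) :
    ¬ (qs p b n = 0 ∧ qs p b m = 0) := by
  have := Fact.mk hp
  rintro ⟨h1, h2⟩
  unfold qs at h1 h2
  set x : ZMod p := -(b : ZMod p) with hx
  have e1 : x ^ n = 1 := by
    have := geo_mul x n
    rw [h1, zero_mul] at this
    exact sub_eq_zero.1 this.symm
  have e2 : x ^ m = 1 := by
    have := geo_mul x m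
    rw [h2, zero_mul] at this
    exact sub_eq_zero.1 this.symm
  have hcop : Nat.Coprime n m := (Nat.coprime_primes hn hm).2 hnm
  have h3 : orderOf x ∣ 1 := by
    rw [← hcop]
    exact Nat.dvd_gcd (orderOf_dvd_of_pow_eq_one e1) (orderOf_dvd_of_pow_eq_one e2)
  have hx1 : x = 1 := by
    have := Nat.dvd_one.1 h3
    exact orderOf_eq_one_iff.1 this
  rw [hx1, geo_one, ZMod.natCast_eq_zero_iff] at h1 h2
  apply hnm
  rw [← (Nat.prime_dvd_prime_iff_eq hp hn).1 h1, ← (Nat.prime_dvd_prime_iff_eq hp hm).1 h2]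

end Pool.Agent.L5helper10.RB
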