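import Mathlib

/-! Chernoff bounds in both directions under negative dependence (for helper86). -/

set_option autoImplicit false
set_option linter.unusedSectionVars false

namespace Pool.Agent.L5helper86.RB

open Finset MeasureTheory ProbabilityTheory

namespace Ch

variable {Ω : Type} [MeasurableSpace Ω]

lemma ind_inter (B : ℕ → Set Ω) (T : Finset ℕ) (ω : Ω) :
    ∏ n ∈ T, (B n).indicator (fun _ => (1 : ℝ)) ω = (⋂ n ∈ T, B n).indicator (fun _ => (1 : ℝ)) ω := by
  classical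
  by_cases h : ∀ n ∈ T, ω ∈ B n
  · rw [Set.indicator_of_mem (by simpa using h)]
    exact Finset.prod_eq_one fun n hn => Set.indicator_of_mem (h n hn) _
  · rw [Set.indicator_of_notMem (by simpa using h)]
    push Not at h
    obtain ⟨n, hn, hω⟩ := h
    exact Finset.prod_eq_zero hn (Set.indicator_of_notMem hω _)

lemma gen_expand (B : ℕ → Set Ω) (s : Finset ℕ) (a : ℝ) (ω : Ω) :
    ∏ n ∈ s, (1 + a * (B n).indicator (fun _ => (1 : ℝ)) ω) =
      ∑ T ∈ s.powerset, a ^ #T * (⋂ n ∈ T, B n).indicator (fun _ => (1 : ℝ)) ω := by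
  rw [Finset.prod_one_add]
  refine Finset.sum_congr rfl fun T _ => ?_
  rw [Finset.prod_mul_distrib, Finset.prod_const, ind_inter]

lemma ms_inter (B : ℕ → Set Ω) (hB : ∀ n, MeasurableSet (B n)) (T : Finset ℕ) : MeasurableSet (⋂ n ∈ T, B n) :=
  Finset.measurableSet_biInter T fun n _ => hB n

lemma gen_int (P : Measure Ω) [IsProbabilityMeasure P] (B : ℕ → Set Ω) (hB : ∀ n, MeasurableSet (B n))
    (s : Finset ℕ) (a : ℝ) : Integrable (fun ω => ∏ n ∈ s, (1 + a * (B n).indicator (fun _ => (1 : ℝ)) ω)) P := by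
  simp_rw [gen_expand]
  exact integrable_finsetSum _ fun T _ => ((integrable_const 1).indicator (ms_inter B hB T)).const_mul _

lemma gen_le (P : Measure Ω) [IsProbabilityMeasure P] (B : ℕ → Set Ω) (hB : ∀ n, MeasurableSet (B n))
    (q : ℕ → ℝ) (s : Finset ℕ) (h : ∀ T ⊆ s, P.real (⋂ n ∈ T, B n) ≤ ∏ n ∈ T, q n) (a : ℝ) (ha : 0 ≤ a) :
    ∫ ω, ∏ n ∈ s, (1 + a * (B n).indicator (fun _ => (1 : ℝ)) ω) ∂P ≤ ∏ n ∈ s, (1 + a * q n) := by
  simp_rw [gen_expand]
  rw [integral_finsetSum _ fun T _ => ((integrable_const 1).indicator (ms_inter B hB T)).const_mul _,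
    Finset.prod_one_add]
  refine Finset.sum_le_sum fun T hT => ?_
  rw [integral_const_mul, integral_indicator (ms_inter B hB T), setIntegral_const, smul_eq_mul, mul_one,
    Finset.prod_mul_distrib, Finset.prod_const]
  exact mul_le_mul_of_nonneg_left (h T (Finset.mem_powerset.1 hT)) (by positivity)

/-- the number of events -/
noncomputable def Y (A : ℕ → Set Ω) (s : Finset ℕ) (ω : Ω) : ℝ := ∑ n ∈ s, (A n).indicator (fun _ => (1 : ℝ)) ω

lemma exp_up (A : ℕ → Set Ω) (s : Finset ℕ) (t : ℝ) (ω : Ω) :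
    Real.exp (t * Y A s ω) = ∏ n ∈ s, (1 + (Real.exp t - 1) * (A n).indicator (fun _ => (1 : ℝ)) ω) := by
  unfold Y
  rw [Finset.mul_sum, Real.exp_sum]
  refine Finset.prod_congr rfl fun n _ => ?_
  by_cases h : ω ∈ A n
  · rw [Set.indicator_of_mem h]; simp
  · rw [Set.indicator_of_notMem h]; simp

lemma exp_down (A : ℕ → Set Ω) (s : Finset ℕ) (t : ℝ) (ω : Ω) :
    Real.exp (-t * Y A s ω) = Real.exp (-t) ^ #s *
      ∏ n ∈ s, (1 + (Real.exp t - 1) * ((A n)ᶜ).indicator (fun _ => (1 : ℝ)) ω) := by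
  unfold Y
  rw [Finset.mul_sum, Real.exp_sum, ← Finset.prod_const, ← Finset.prod_mul_distrib]
  refine Finset.prod_congr rfl fun n _ => ?_
  by_cases h : ω ∈ A n
  · rw [Set.indicator_of_mem h, Set.indicator_of_notMem (by simpa using h)]; simp
  · rw [Set.indicator_of_notMem h, Set.indicator_of_mem (by simpa using h)]
    have : Real.exp (-t) * Real.exp t = 1 := by rw [← Real.exp_add]; simp
    simp [this]

lemma up_mgf (P : Measure Ω) [IsProbabilityMeasure P] (A : ℕ → Set Ω) (hA : ∀ n, MeasurableSet (A n))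
    (s : Finset ℕ) (h1 : ∀ T ⊆ s, P.real (⋂ n ∈ T, A n) ≤ ∏ n ∈ T, P.real (A n)) (t : ℝ) (ht : 0 ≤ t) :
    Integrable (fun ω => Real.exp (t * Y A s ω)) P ∧
    ∫ ω, Real.exp (t * Y A s ω) ∂P ≤ Real.exp ((Real.exp t - 1) * ∑ n ∈ s, P.real (A n)) := by
  simp_rw [exp_up]
  refine ⟨gen_int P A hA s _, (gen_le P A hA _ s h1 _ (by linarith [Real.one_le_exp ht])).trans ?_⟩
  rw [Finset.mul_sum, Real.exp_sum]
  refine Finset.prod_le_prod (fun n _ => ?_) fun n _ => ?_
  · have := Real.one_le_exp ht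
    have : 0 ≤ P.real (A n) := measureReal_nonneg
    nlinarith
  · linarith [Real.add_one_le_exp ((Real.exp t - 1) * P.real (A n))]

lemma down_mgf (P : Measure Ω) [IsProbabilityMeasure P] (A : ℕ → Set Ω) (hA : ∀ n, MeasurableSet (A n))
    (s : Finset ℕ) (h2 : ∀ T ⊆ s, P.real (⋂ n ∈ T, (A n)ᶜ) ≤ ∏ n ∈ T, (1 - P.real (A n))) (t : ℝ) (ht : 0 ≤ t) :
    Integrable (fun ω => Real.exp (-t * Y A s ω)) P ∧
    ∫ ω, Real.exp (-t * Y A s ω) ∂P ≤ Real.exp ((Real.exp (-t) - 1) * ∑ n ∈ s, P.real (A n)) := by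
  simp_rw [exp_down]
  have hAc : ∀ n, MeasurableSet (A n)ᶜ := fun n => (hA n).compl
  refine ⟨(gen_int P (fun n => (A n)ᶜ) hAc s _).const_mul _, ?_⟩
  rw [integral_const_mul]
  have h3 := gen_le P (fun n => (A n)ᶜ) hAc (fun n => 1 - P.real (A n)) s h2 (Real.exp t - 1)
    (by linarith [Real.one_le_exp ht])
  refine (mul_le_mul_of_nonneg_left h3 (by positivity)).trans ?_
  rw [← Finset.prod_const, ← Finset.prod_mul_distrib, Finset.mul_sum, Real.exp_sum]
  have he : Real.exp (-t) * Real.exp t = 1 := by rw [← Real.exp_add]; simp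
  have e1 : ∀ x : ℝ, Real.exp (-t) * (1 + (Real.exp t - 1) * (1 - x)) = 1 + (Real.exp (-t) - 1) * x := by
    intro x
    linear_combination (1 - x) * he
  have hle : Real.exp (-t) ≤ 1 := Real.exp_le_one_iff.2 (by linarith)
  refine Finset.prod_le_prod (fun n _ => ?_) fun n _ => ?_
  · rw [e1]
    have h4 : P.real (A n) ≤ 1 := measureReal_le_one
    have h5 : 0 ≤ P.real (A n) := measureReal_nonneg
    have h6 := Real.exp_pos (-t)
    nlinarith
  · rw [e1]
    linarith [Real.add_one_le_exp ((Real.exp (-t) - 1) * P.real (A n))]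

lemma choice (E K : ℝ) (hE : 0 ≤ E) (hK : 0 ≤ K) : ∃ t : ℝ, 0 ≤ t ∧ t ≤ 1 ∧
    t ^ 2 * E - t * (2 * √(E * K) + 2 * K) ≤ -K := by
  rcases lt_or_ge E K with h | h
  · refine ⟨1, zero_le_one, le_rfl, ?_⟩
    have := Real.sqrt_nonneg (E * K)
    linarith
  · rcases eq_or_lt_of_le hE with h0 | h0
    · have hK0 : K = 0 := by linarith
      exact ⟨0, le_rfl, zero_le_one, by rw [hK0]; simp⟩
    · refine ⟨√(K / E), Real.sqrt_nonneg _, ?_, ?_⟩
      · rw [Real.sqrt_le_one, div_le_one h0]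
        exact h
      · have e1 : √(K / E) ^ 2 * E = K := by
          rw [Real.sq_sqrt (by positivity)]
          field_simp
        have e2 : √(K / E) * √(E * K) = K := by
          rw [← Real.sqrt_mul (by positivity)]
          have : K / E * (E * K) = K ^ 2 := by field_simp
          rw [this, Real.sqrt_sq hK]
        have e3 : 0 ≤ √(K / E) * K := by positivity
        rw [e1]
        nlinarith

end Ch

open Ch in
theorem chern {Ω : Type} [MeasurableSpace Ω] (P : Measure Ω) [IsProbabilityMeasure P] (A : ℕ → Set Ω)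
    (hA : ∀ n, MeasurableSet (A n)) (s : Finset ℕ)
    (h1 : ∀ T ⊆ s, P.real (⋂ n ∈ T, A n) ≤ ∏ n ∈ T, P.real (A n))
    (h2 : ∀ T ⊆ s, P.real (⋂ n ∈ T, (A n)ᶜ) ≤ ∏ n ∈ T, (1 - P.real (A n))) (K : ℝ) (hK : 0 ≤ K) :
    P.real {ω | 2 * √((∑ n ∈ s, P.real (A n)) * K) + 2 * K ≤
      |∑ n ∈ s, (A n).indicator (fun _ => (1 : ℝ)) ω - ∑ n ∈ s, P.real (A n)|} ≤ 4 * Real.exp (-K) := by
  set E := ∑ n ∈ s, P.real (A n) with hEd
  have hE : 0 ≤ E := Finset.sum_nonneg fun _ _ => measureReal_nonneg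
  obtain ⟨t, ht0, ht1, ht⟩ := choice E K hE hK
  set lam := 2 * √(E * K) + 2 * K with hlam
  obtain ⟨i1, u1⟩ := up_mgf P A hA s h1 t ht0
  obtain ⟨i2, u2⟩ := down_mgf P A hA s h2 t ht0
  have b1 : P.real {ω | E + lam ≤ Y A s ω} ≤ Real.exp (-K) := by
    have h := measure_ge_le_exp_mul_mgf (μ := P) (X := Y A s) (E + lam) ht0 i1
    refine h.trans ?_
    unfold mgf
    refine (mul_le_mul_of_nonneg_left u1 (Real.exp_pos _).le).trans ?_
    rw [← Real.exp_add]
    apply Real.exp_le_exp.2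
    have h3 := (abs_le.1 (Real.abs_exp_sub_one_sub_id_le (x := t) (by rw [abs_of_nonneg ht0]; exact ht1))).2
    nlinarith
  have b2 : P.real {ω | Y A s ω ≤ E - lam} ≤ Real.exp (-K) := by
    have h := measure_le_le_exp_mul_mgf (μ := P) (X := Y A s) (t := -t) (E - lam) (by linarith) i2
    refine h.trans ?_
    unfold mgf
    refine (mul_le_mul_of_nonneg_left u2 (Real.exp_pos _).le).trans ?_
    rw [← Real.exp_add]
    apply Real.exp_le_exp.2
    have h3 := (abs_le.1 (Real.abs_exp_sub_one_sub_id_le (x := -t) (by rw [abs_neg, abs_of_nonneg ht0]; exact ht1))).2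
    nlinarith
  have hsub : {ω | lam ≤ |∑ n ∈ s, (A n).indicator (fun _ => (1 : ℝ)) ω - E|} ⊆
      {ω | E + lam ≤ Y A s ω} ∪ {ω | Y A s ω ≤ E - lam} := by
    intro ω hω
    have h4 : lam ≤ |Y A s ω - E| := hω
    rcases le_abs'.1 h4 with h5 | h5
    · right
      show Y A s ω ≤ E - lam
      linarith
    · left
      show E + lam ≤ Y A s ω
      linarith
  have h6 := (measureReal_mono hsub (measure_ne_top P _)).trans (measureReal_union_le _ _)
  have := Real.exp_pos (-K)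
  linarith

end Pool.Agent.L5helper86.RB
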